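import Pool.Agent.Helper64.CB.M_FI1

/-! Module FI2 of project CB (MP_b21509_co): assembly of theorem 2. -/

open MeasureTheory Set Filter
open scoped Pointwise

namespace Pool.Agent.Helper64.CB

open Helper97.CB

/-- Module FI2. -/
theorem hFI2 (m β₀ : ℝ) (hm : 0 < m) (hβ : 0 < β₀)
    (h₁ : StWid) (h₂ : StAre) (h₃ : StHexA) (h₄ : StHexB) (h₅ : StSml) (h₆ : StRot)
    (h₇ : StTwo m β₀) (h₈ : StPig) (h₉ : StPrt) : StFi2 m β₀ := by
  intro K hK hd
  by_contra hth
  have hk := area_pos hK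
  have hdpos : 0 < area (K - K) := lt_of_lt_of_le (mul_pos hβ hk) hd
  obtain ⟨u, hu, hpig⟩ := h₈ K hK
  have hs := h₅ K hK m hm hth
  obtain ⟨hB, hA, hS⟩ := h₆ K u hu hK
  have hs' := hS _ hs
  set K' := (fun z => u * z) '' K with hK'
  obtain ⟨hc, hW, hconc, hcont, hb, -, -⟩ := h₁ K' hB
  have hlt := h₇ (cmax K') (wid K' 0) (area K) (area (K - K)) (wid K') hc hW hk hdpos hcont hconc
    (fun s hs => (hb s hs).2) ?_ ?_ ?_
  · linarith
  · rw [← h₂ K' hB 0 ⟨le_rfl, hc.le⟩, Sh_zero, hA]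
  · have e1 : ∫ r in (0 : ℝ)..cmax K', r * area (Sh K' r)
        = ∫ r in (0 : ℝ)..cmax K', r * (∫ s in r..cmax K', wid K' s) := by
      refine intervalIntegral.integral_congr ?_
      intro r hr
      rw [uIcc_of_le hc.le] at hr
      simp only
      rw [h₂ K' hB r hr]
    rw [e1, h₉ (cmax K') (wid K') hc.le hcont] at hpig
    have : (area K) ^ 2 / area (K - K) * ((cmax K') ^ 2 / 2)
        = (1 / 2) * ((area K) ^ 2 / area (K - K) * (cmax K') ^ 2) := by ring
    rw [this] at hpig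
    linarith
  · intro s hsI
    constructor
    · obtain ⟨P, a, b, γ, φ, c, f, hH, he⟩ := h₃ K' hB s hsI
      rw [← he]
      exact hs' P a b γ φ c f hH
    · obtain ⟨P, a, b, γ, φ, c, f, hH, he⟩ := h₄ K' hB s hsI
      rw [← he]
      exact hs' P a b γ φ c f hH

end Pool.Agent.Helper64.CB
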