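import Pool.Agent.Helper97.CB.St

/-! Module FI1 of project CB (MP_b21509_co): assembly of theorem 1. -/

open MeasureTheory Set Filter
open scoped Pointwise

namespace Pool.Agent.Helper64.CB

open Helper97.CB

theorem area_pos {K : Set ℂ} (hK : IsBody K) : 0 < area K := by
  obtain ⟨_, hc, hi⟩ := hK
  unfold area
  refine ENNReal.toReal_pos ?_ hc.measure_lt_top.ne
  have h1 : 0 < volume (interior K) := isOpen_interior.measure_pos volume hi
  exact (lt_of_lt_of_le h1 (measure_mono interior_subset)).ne'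

theorem Sh_zero (K : Set ℂ) : Sh K 0 = K := by
  ext z
  simp [Sh]

theorem core {m xl xu : ℝ} (h₁ : StWid) (h₂ : StAre) (h₃ : StHexA) (h₄ : StHexB)
    (h₇ : StOne m xl xu) (K : Set ℂ) (hK : IsBody K) (hs : Small K (2 * m * area K)) :
    xl * area K < cmax K * wid K 0 ∧ cmax K * wid K 0 < xu * area K := by
  obtain ⟨hc, hW, hconc, hcont, hb, -, -⟩ := h₁ K hK
  refine h₇ (cmax K) (wid K 0) (area K) (wid K) hc hW (area_pos hK) hcont hconc
    (fun s hs => (hb s hs).2) ?_ ?_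
  · rw [← h₂ K hK 0 ⟨le_rfl, hc.le⟩, Sh_zero]
  · intro s hsI
    constructor
    · obtain ⟨P, a, b, γ, φ, c, f, hH, he⟩ := h₃ K hK s hsI
      rw [← he]
      exact hs P a b γ φ c f hH
    · obtain ⟨P, a, b, γ, φ, c, f, hH, he⟩ := h₄ K hK s hsI
      rw [← he]
      exact hs P a b γ φ c f hH

/-- the unit number rotating `v` to the positive real axis -/
theorem exists_unit {v : ℂ} (hv : v ≠ 0) : ∃ u : ℂ, ‖u‖ = 1 ∧ u * v = (‖v‖ : ℂ) ∧
    ∀ w : ℂ, ‖v‖ * (u * w).im = cr v w := by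
  have hr : 0 < ‖v‖ := norm_pos_iff.mpr hv
  have hrc : (‖v‖ : ℂ) ≠ 0 := by exact_mod_cast hr.ne'
  refine ⟨(starRingEnd ℂ) v / (‖v‖ : ℂ), ?_, ?_, ?_⟩
  · rw [norm_div, RCLike.norm_conj, Complex.norm_real, norm_norm, div_self hr.ne']
  · have h1 : (starRingEnd ℂ) v * v = ((‖v‖ : ℂ)) ^ 2 := by
      rw [mul_comm, Complex.mul_conj, Complex.normSq_eq_norm_sq]
      push_cast
      ring
    calc (starRingEnd ℂ) v / (‖v‖ : ℂ) * v = ((starRingEnd ℂ) v * v) / (‖v‖ : ℂ) := by ring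
      _ = (‖v‖ : ℂ) := by rw [h1]; field_simp
  · intro w
    have h2 : (starRingEnd ℂ) v / (‖v‖ : ℂ) * w = (((‖v‖)⁻¹ : ℝ) : ℂ) * ((starRingEnd ℂ) v * w) := by
      push_cast
      field_simp
    rw [h2, Complex.im_ofReal_mul]
    unfold cr
    simp only [Complex.mul_im, Complex.conj_re, Complex.conj_im]
    field_simp
    ring


theorem main {m xl xu : ℝ} (hm : 0 < m) (hxu : 0 < xu)
    (h₁ : StWid) (h₂ : StAre) (h₃ : StHexA) (h₄ : StHexB) (h₅ : StSml) (h₆ : StRot)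
    (h₇ : StOne m xl xu) : ∀ K : Set ℂ, IsBody K → ¬ (theta K ≤ ENNReal.ofReal (1 / m)) →
    ∀ u : ℂ, ‖u‖ = 1 → IsBody ((fun z => u * z) '' K) ∧
      xl * area K < cmax ((fun z => u * z) '' K) * wid ((fun z => u * z) '' K) 0 ∧
      cmax ((fun z => u * z) '' K) * wid ((fun z => u * z) '' K) 0 < xu * area K := by
  intro K hK hth u hu
  have hs := h₅ K hK m hm hth
  obtain ⟨hB, hA, hS⟩ := h₆ K u hu hK
  have h := core h₁ h₂ h₃ h₄ h₇ ((fun z => u * z) '' K) hB (by rw [hA]; exact hS _ hs)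
  rw [hA] at h
  exact ⟨hB, h⟩

theorem caseA {m xl xu : ℝ} (hm : 0 < m) (hxu : 0 < xu)
    (h₁ : StWid) (h₂ : StAre) (h₃ : StHexA) (h₄ : StHexB) (h₅ : StSml) (h₆ : StRot)
    (h₇ : StOne m xl xu) (K : Set ℂ) (hK : IsBody K)
    (hth : ¬ (theta K ≤ ENNReal.ofReal (1 / m))) {a b c d : ℂ} (ha : a ∈ K) (hb : b ∈ K)
    (hc : c ∈ K) (hd : d ∈ K) (hcr : xu * area K ≤ |cr (c - a) (d - b)|) : False := by
  have hk := area_pos hK
  have hv : c - a ≠ 0 := by
    intro h0
    rw [h0] at hcr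
    have : cr 0 (d - b) = 0 := by simp [cr]
    rw [this, abs_zero] at hcr
    have := mul_pos hxu hk
    linarith
  obtain ⟨u, hu, huv, hcrw⟩ := exists_unit hv
  obtain ⟨hB, -, h⟩ := main hm hxu h₁ h₂ h₃ h₄ h₅ h₆ h₇ K hK hth u hu
  set K' := (fun z => u * z) '' K with hK'
  obtain ⟨hcp, hWp, -, -, -, hemp, him⟩ := h₁ K' hB
  have hr : 0 < ‖c - a‖ := norm_pos_iff.mpr hv
  have hmem : ∀ z ∈ K, u * z ∈ K' := fun z hz => ⟨z, hz, rfl⟩
  have hle : ‖c - a‖ ≤ cmax K' := by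
    by_contra hlt
    push Not at hlt
    have he := hemp _ hlt
    have : u * a ∈ Sh K' ‖c - a‖ := by
      refine ⟨hmem a ha, ?_⟩
      rw [← huv]
      have : u * a + u * (c - a) = u * c := by ring
      rw [this]
      exact hmem c hc
    rw [he] at this
    exact this
  have h1 := him _ (hmem d hd) _ (hmem b hb)
  have h2 := him _ (hmem b hb) _ (hmem d hd)
  have h3 : (u * (d - b)).im = (u * d).im - (u * b).im := by
    rw [mul_sub, Complex.sub_im]
  have h4 : |(u * (d - b)).im| ≤ wid K' 0 := by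
    rw [h3, abs_le]
    constructor <;> linarith
  have h5 : |cr (c - a) (d - b)| = ‖c - a‖ * |(u * (d - b)).im| := by
    rw [← hcrw (d - b), abs_mul, abs_of_pos hr]
  have h6 : |cr (c - a) (d - b)| ≤ cmax K' * wid K' 0 := by
    rw [h5]
    exact mul_le_mul hle h4 (abs_nonneg _) hcp.le
  linarith

theorem wid_zero_le {K : Set ℂ} (hne : K.Nonempty) {α β : ℝ} (h : ∀ z ∈ K, z.im ∈ Icc α β) :
    wid K 0 ≤ β - α := by
  unfold wid
  rw [Sh_zero]
  have hne' : (Complex.im '' K).Nonempty := hne.image _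
  have h1 : sSup (Complex.im '' K) ≤ β := by
    refine csSup_le hne' ?_
    rintro _ ⟨z, hz, rfl⟩
    exact (h z hz).2
  have h2 : α ≤ sInf (Complex.im '' K) := by
    refine le_csInf hne' ?_
    rintro _ ⟨z, hz, rfl⟩
    exact (h z hz).1
  linarith

theorem caseB {m xl xu : ℝ} (hm : 0 < m) (hxu : 0 < xu)
    (h₁ : StWid) (h₂ : StAre) (h₃ : StHexA) (h₄ : StHexB) (h₅ : StSml) (h₆ : StRot)
    (h₇ : StOne m xl xu) (K : Set ℂ) (hK : IsBody K)
    (hth : ¬ (theta K ≤ ENNReal.ofReal (1 / m))) {p v w : ℂ} (hv : v ≠ 0)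
    (hcov : ∀ z ∈ K, ∃ s ∈ Icc (0 : ℝ) 1, ∃ t ∈ Icc (0 : ℝ) 1,
      z = p + (s : ℂ) * v + (t : ℂ) * w) (hcr : |cr v w| ≤ xl * area K) : False := by
  obtain ⟨u, hu, huv, hcrw⟩ := exists_unit hv
  obtain ⟨hB, h, -⟩ := main hm hxu h₁ h₂ h₃ h₄ h₅ h₆ h₇ K hK hth u hu
  set K' := (fun z => u * z) '' K with hK'
  obtain ⟨hcp, hWp, -, -, hbd, -, -⟩ := h₁ K' hB
  have hr : 0 < ‖v‖ := norm_pos_iff.mpr hv
  have hcov' : ∀ z ∈ K', ∃ s ∈ Icc (0 : ℝ) 1, ∃ t ∈ Icc (0 : ℝ) 1,
      z = u * p + (s : ℂ) * (‖v‖ : ℂ) + (t : ℂ) * (u * w) := by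
    rintro _ ⟨z, hz, rfl⟩
    obtain ⟨s, hs, t, ht, e⟩ := hcov z hz
    refine ⟨s, hs, t, ht, ?_⟩
    simp only
    rw [e, ← huv]
    ring
  have him : ∀ (s t : ℝ), (u * p + (s : ℂ) * (‖v‖ : ℂ) + (t : ℂ) * (u * w)).im
      = (u * p).im + t * (u * w).im := by
    intro s t
    rw [Complex.add_im, Complex.add_im, Complex.im_ofReal_mul, Complex.im_ofReal_mul,
      Complex.ofReal_im]
    ring
  have hre : ∀ (s t : ℝ), (u * p + (s : ℂ) * (‖v‖ : ℂ) + (t : ℂ) * (u * w)).re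
      = (u * p).re + s * ‖v‖ + t * (u * w).re := by
    intro s t
    rw [Complex.add_re, Complex.add_re, Complex.re_ofReal_mul, Complex.re_ofReal_mul,
      Complex.ofReal_re]
  have hne : K'.Nonempty := by
    obtain ⟨hne, -, -⟩ := hbd 0 ⟨le_rfl, hcp.le⟩
    rw [Sh_zero] at hne
    exact hne
  -- the width
  have hW : wid K' 0 ≤ |(u * w).im| := by
    rcases le_total 0 (u * w).im with hn | hn
    · have := wid_zero_le hne (α := (u * p).im) (β := (u * p).im + (u * w).im) (by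
        intro z hz
        obtain ⟨s, hs, t, ht, e⟩ := hcov' z hz
        rw [e, him]
        constructor
        · nlinarith [mul_nonneg ht.1 hn]
        · nlinarith [mul_le_mul_of_nonneg_right ht.2 hn])
      rw [abs_of_nonneg hn]
      linarith
    · have := wid_zero_le hne (α := (u * p).im + (u * w).im) (β := (u * p).im) (by
        intro z hz
        obtain ⟨s, hs, t, ht, e⟩ := hcov' z hz
        rw [e, him]
        constructor
        · nlinarith [mul_nonneg (sub_nonneg.mpr ht.2) (neg_nonneg.mpr hn)]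
        · nlinarith [mul_nonneg ht.1 (neg_nonneg.mpr hn)])
      rw [abs_of_nonpos hn]
      linarith
  have himne : (u * w).im ≠ 0 := by
    intro h0
    rw [h0, abs_zero] at hW
    linarith
  -- the longest chord
  have hC : cmax K' ≤ ‖v‖ := by
    obtain ⟨⟨z, hz1, hz2⟩, -, -⟩ := hbd (cmax K') ⟨hcp.le, le_rfl⟩
    obtain ⟨s, hs, t, ht, e⟩ := hcov' z hz1
    obtain ⟨s', hs', t', ht', e'⟩ := hcov' _ hz2
    have i1 : z.im = (u * p).im + t * (u * w).im := by rw [e, him]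
    have i2 : z.im = (u * p).im + t' * (u * w).im := by
      rw [← him s' t', ← e']
      simp
    have i3 : t = t' := by
      have : (t - t') * (u * w).im = 0 := by linarith
      rcases mul_eq_zero.mp this with h | h
      · linarith
      · exact absurd h himne
    have r1 : z.re = (u * p).re + s * ‖v‖ + t * (u * w).re := by rw [e, hre]
    have r2 : z.re + cmax K' = (u * p).re + s' * ‖v‖ + t' * (u * w).re := by
      rw [← hre s' t', ← e']
      simp
    rw [i3] at r1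
    have r3 : cmax K' = (s' - s) * ‖v‖ := by linarith
    rw [r3]
    have : s' - s ≤ 1 := by linarith [hs.1, hs'.2]
    nlinarith
  have h5 : |cr v w| = ‖v‖ * |(u * w).im| := by
    rw [← hcrw w, abs_mul, abs_of_pos hr]
  have h6 : cmax K' * wid K' 0 ≤ |cr v w| := by
    rw [h5]
    exact mul_le_mul hC hW hWp.le hr.le
  linarith

/-- Module FI1. -/
theorem hFI1 (m xl xu : ℝ) (hm : 0 < m) (hxu : 0 < xu)
    (h₁ : StWid) (h₂ : StAre) (h₃ : StHexA) (h₄ : StHexB) (h₅ : StSml) (h₆ : StRot)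
    (h₇ : StOne m xl xu) : StFi1 m xl xu := by
  intro K hK hcrit
  by_contra hth
  rcases hcrit with ⟨a, ha, b, hb, c, hc, d, hd, hcr⟩ | ⟨p, v, w, hcov, hcr⟩
  · exact caseA hm hxu h₁ h₂ h₃ h₄ h₅ h₆ h₇ K hK hth ha hb hc hd hcr
  · by_cases hv : v = 0
    · by_cases hw : w = 0
      · refine caseB hm hxu h₁ h₂ h₃ h₄ h₅ h₆ h₇ K hK hth (p := p) (v := 1) (w := 0)
          one_ne_zero ?_ ?_
        · intro z hz
          obtain ⟨s, hs, t, ht, e⟩ := hcov z hz
          refine ⟨0, ⟨le_rfl, zero_le_one⟩, 0, ⟨le_rfl, zero_le_one⟩, ?_⟩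
          rw [e, hv, hw]
          simp
        · refine le_trans ?_ hcr
          have : cr 1 0 = 0 := by simp [cr]
          rw [this, abs_zero]
          exact abs_nonneg _
      · refine caseB hm hxu h₁ h₂ h₃ h₄ h₅ h₆ h₇ K hK hth (p := p) (v := w) (w := v) hw ?_ ?_
        · intro z hz
          obtain ⟨s, hs, t, ht, e⟩ := hcov z hz
          exact ⟨t, ht, s, hs, by rw [e]; ring⟩
        · have : cr w v = - cr v w := by unfold cr; ring
          rw [this, abs_neg]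
          exact hcr
    · exact caseB hm hxu h₁ h₂ h₃ h₄ h₅ h₆ h₇ K hK hth hv hcov hcr

end Pool.Agent.Helper64.CB
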